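import Mathlib

/-!
# Divisor sums

`tk k = ζ^k` is the `k`-fold divisor function.
-/

namespace Pool.Agent.Lib.MP_6bc78b_nt.MS.P2.H70

open ArithmeticFunction Finset

/-- The `k`-fold divisor function. -/
def tk (k : ℕ) : ArithmeticFunction ℕ := ArithmeticFunction.zeta ^ k

theorem tk_zero_apply (n : ℕ) : tk 0 n = if n = 1 then 1 else 0 := by
  simp [tk, ArithmeticFunction.one_apply]

theorem tk_succ_apply (k n : ℕ) : tk (k + 1) n = ∑ d ∈ n.divisors, tk k d := by
  rw [tk, pow_succ, ArithmeticFunction.mul_zeta_apply, tk]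

theorem tk_one_apply {n : ℕ} (hn : n ≠ 0) : tk 1 n = 1 := by
  simp [tk, ArithmeticFunction.zeta_apply, hn]

theorem tk_pos {k n : ℕ} (hk : k ≠ 0) (hn : n ≠ 0) : 1 ≤ tk k n := by
  obtain ⟨k, rfl⟩ := Nat.exists_eq_succ_of_ne_zero hk
  clear hk
  induction k generalizing n with
  | zero => rw [tk_one_apply hn]
  | succ k ih =>
    rw [Nat.succ_eq_add_one, tk_succ_apply]
    refine le_trans (ih hn) ?_
    exact Finset.single_le_sum (f := fun d => tk (k + 1) d) (fun _ _ => Nat.zero_le _)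
      (Nat.mem_divisors_self n hn)

theorem tk_two_apply (n : ℕ) : tk 2 n = n.divisors.card := by
  rw [show (2 : ℕ) = 1 + 1 from rfl, tk_succ_apply]
  rw [Finset.card_eq_sum_ones]
  refine Finset.sum_congr rfl fun d hd => ?_
  exact tk_one_apply (Nat.pos_of_mem_divisors hd).ne'

theorem tk_mono_left {k l : ℕ} (hkl : k ≤ l) (n : ℕ) : tk k n ≤ tk l n := by
  rcases eq_or_ne n 0 with rfl | hn
  · simp
  induction l, hkl using Nat.le_induction with
  | base => exact le_rfl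
  | succ l hl ih =>
    refine ih.trans ?_
    rw [tk_succ_apply]
    exact Finset.single_le_sum (f := fun d => tk l d) (fun _ _ => Nat.zero_le _)
      (Nat.mem_divisors_self n hn)

/-- Submultiplicativity. -/
theorem tk_mul_le (k a b : ℕ) : tk k (a * b) ≤ tk k a * tk k b := by
  induction k generalizing a b with
  | zero =>
    rw [tk_zero_apply, tk_zero_apply, tk_zero_apply]
    by_cases h : a * b = 1
    · have ha := Nat.eq_one_of_mul_eq_one_right h
      have hb := Nat.eq_one_of_mul_eq_one_left h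
      simp [ha, hb]
    · simp [h]
  | succ k ih =>
    rw [tk_succ_apply, tk_succ_apply, tk_succ_apply, Finset.sum_mul_sum, ← Finset.sum_product']
    rcases eq_or_ne a 0 with rfl | ha
    · simp
    rcases eq_or_ne b 0 with rfl | hb
    · simp
    have h1 : (a * b).divisors ⊆ (a.divisors ×ˢ b.divisors).image fun p => p.1 * p.2 := by
      intro d hd
      obtain ⟨x, y, hx, hy, rfl⟩ := exists_dvd_and_dvd_of_dvd_mul (Nat.dvd_of_mem_divisors hd)
      exact Finset.mem_image.2 ⟨(x, y), Finset.mem_product.2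
        ⟨Nat.mem_divisors.2 ⟨hx, ha⟩, Nat.mem_divisors.2 ⟨hy, hb⟩⟩, rfl⟩
    calc ∑ d ∈ (a * b).divisors, tk k d
        ≤ ∑ d ∈ (a.divisors ×ˢ b.divisors).image fun p => p.1 * p.2, tk k d :=
          Finset.sum_le_sum_of_subset h1
      _ ≤ ∑ p ∈ a.divisors ×ˢ b.divisors, tk k (p.1 * p.2) :=
          Finset.sum_image_le_of_nonneg (fun _ _ => Nat.zero_le _)
      _ ≤ ∑ p ∈ a.divisors ×ˢ b.divisors, tk k p.1 * tk k p.2 :=
          Finset.sum_le_sum fun p _ => ih p.1 p.2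

/-- Products of divisor functions. -/
theorem tk_mul_tk_le (j k n : ℕ) : tk j n * tk k n ≤ tk (j * k) n := by
  rcases eq_or_ne n 0 with rfl | hn
  · simp
  induction j generalizing n with
  | zero =>
    rw [Nat.zero_mul, tk_zero_apply]
    by_cases h : n = 1
    · subst h
      rw [if_pos rfl, one_mul]
      have : ∀ k, tk k 1 = 1 := by
        intro k
        induction k with
        | zero => simp [tk_zero_apply]
        | succ k ih => rw [tk_succ_apply]; simp [ih]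
      rw [this]
    · simp [h]
  | succ j ih =>
    rw [Nat.succ_mul, tk_succ_apply, Finset.sum_mul]
    have h2 : tk (j * k + k) n = ∑ x ∈ n.divisorsAntidiagonal, tk (j * k) x.1 * tk k x.2 := by
      rw [tk, pow_add, ArithmeticFunction.mul_apply, tk, tk]
    rw [h2, Nat.sum_divisorsAntidiagonal (fun x y => tk (j * k) x * tk k y)]
    refine Finset.sum_le_sum fun d hd => ?_
    have hdn := Nat.dvd_of_mem_divisors hd
    have h3 : tk k n ≤ tk k d * tk k (n / d) := by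
      conv_lhs => rw [← Nat.mul_div_cancel' hdn]
      exact tk_mul_le k d (n / d)
    calc tk j d * tk k n ≤ tk j d * (tk k d * tk k (n / d)) := Nat.mul_le_mul_left _ h3
      _ = (tk j d * tk k d) * tk k (n / d) := by ring
      _ ≤ tk (j * k) d * tk k (n / d) :=
        Nat.mul_le_mul_right _ (ih d (Nat.pos_of_mem_divisors hd).ne')

/-- Powers of divisor functions. -/
theorem tk_pow_le (k j n : ℕ) (hn : n ≠ 0) : tk k n ^ j ≤ tk (k ^ j) n := by
  induction j with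
  | zero => rw [pow_zero, pow_zero, tk_one_apply hn]
  | succ j ih =>
    rw [pow_succ, pow_succ]
    exact (Nat.mul_le_mul_right _ ih).trans (tk_mul_tk_le _ _ _)

/-- Monotonicity under divisibility. -/
theorem tk_le_of_dvd {k d n : ℕ} (hk : k ≠ 0) (hd : d ∣ n) (hn : n ≠ 0) : tk k d ≤ tk k n := by
  obtain ⟨k, rfl⟩ := Nat.exists_eq_succ_of_ne_zero hk
  rw [Nat.succ_eq_add_one, tk_succ_apply, tk_succ_apply]
  exact Finset.sum_le_sum_of_subset (Nat.divisors_subset_of_dvd hn hd)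

theorem tk_succ_le_card_pow (k n : ℕ) : tk (k + 1) n ≤ n.divisors.card ^ k := by
  rcases eq_or_ne n 0 with rfl | hn
  · simp
  induction k with
  | zero => rw [zero_add, tk_one_apply hn, pow_zero]
  | succ k ih =>
    rw [tk_succ_apply, pow_succ]
    calc ∑ d ∈ n.divisors, tk (k + 1) d ≤ ∑ _d ∈ n.divisors, tk (k + 1) n :=
          Finset.sum_le_sum fun d hd =>
            tk_le_of_dvd (Nat.succ_ne_zero k) (Nat.dvd_of_mem_divisors hd) hn
      _ = tk (k + 1) n * n.divisors.card := by rw [Finset.sum_const, smul_eq_mul, mul_comm]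
      _ ≤ n.divisors.card ^ k * n.divisors.card := Nat.mul_le_mul_right _ ih

/-- `n ≤ φ(n) τ(n)`. -/
theorem le_totient_mul_tk (n : ℕ) : n ≤ n.totient * tk 2 n := by
  rcases eq_or_ne n 0 with rfl | hn
  · simp
  rw [tk_two_apply]
  calc n = ∑ d ∈ n.divisors, d.totient := (Nat.sum_totient n).symm
    _ ≤ ∑ _d ∈ n.divisors, n.totient := Finset.sum_le_sum fun d hd =>
        Nat.le_of_dvd (Nat.totient_pos.2 (Nat.pos_of_ne_zero hn))
          (Nat.totient_dvd_of_dvd (Nat.dvd_of_mem_divisors hd))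
    _ = n.totient * n.divisors.card := by rw [Finset.sum_const, smul_eq_mul, mul_comm]

theorem inv_totient_le (n : ℕ) : (n.totient : ℝ)⁻¹ ≤ tk 2 n / n := by
  rcases eq_or_ne n 0 with rfl | hn
  · simp
  have h1 : (0 : ℝ) < n := by positivity
  have h2 : (0 : ℝ) < n.totient := by
    exact_mod_cast Nat.totient_pos.2 (Nat.pos_of_ne_zero hn)
  rw [inv_eq_one_div, div_le_div_iff₀ h2 h1, one_mul]
  have := le_totient_mul_tk n
  have h3 : (n : ℝ) ≤ (n.totient : ℝ) * tk 2 n := by exact_mod_cast this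
  linarith [mul_comm (n.totient : ℝ) (tk 2 n : ℝ)]

/-- Sums over the divisor pairs of all `n ≤ N`. -/
theorem sum_anti_le (F : ℕ → ℕ → ℝ) (hF : ∀ d e, 0 ≤ F d e) (N : ℕ) :
    ∑ n ∈ Icc 1 N, ∑ p ∈ n.divisorsAntidiagonal, F p.1 p.2 ≤
      ∑ d ∈ Icc 1 N, ∑ e ∈ Icc 1 N, F d e := by
  classical
  rw [← Finset.sum_product']
  refine le_trans (le_of_eq ?_) (Finset.sum_fiberwise_le_sum_of_sum_fiber_nonneg
    (s := Icc 1 N ×ˢ Icc 1 N) (t := Icc 1 N) (g := fun p => p.1 * p.2)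
    (f := fun p => F p.1 p.2) fun y _ => Finset.sum_nonneg fun p _ => hF _ _)
  refine Finset.sum_congr rfl fun n hn => Finset.sum_congr ?_ fun _ _ => rfl
  rw [Finset.mem_Icc] at hn
  ext p
  simp only [Nat.mem_divisorsAntidiagonal, Finset.mem_filter, Finset.mem_product, Finset.mem_Icc]
  constructor
  · rintro ⟨h1, h2⟩
    have hp1 : p.1 ≠ 0 := by rintro h; rw [h, zero_mul] at h1; exact h2 h1.symm
    have hp2 : p.2 ≠ 0 := by rintro h; rw [h, mul_zero] at h1; exact h2 h1.symm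
    have h3 : p.1 ≤ n := Nat.le_of_dvd (by omega) ⟨p.2, h1.symm⟩
    have h4 : p.2 ≤ n := Nat.le_of_dvd (by omega) ⟨p.1, by rw [mul_comm]; exact h1.symm⟩
    exact ⟨⟨⟨by omega, by omega⟩, ⟨by omega, by omega⟩⟩, h1⟩
  · rintro ⟨⟨⟨h1, _⟩, ⟨h3, _⟩⟩, h5⟩
    exact ⟨h5, by omega⟩

theorem sum_inv_le (N : ℕ) : ∑ e ∈ Icc 1 N, (1 : ℝ) / e ≤ 1 + Real.log N := by
  have h := harmonic_le_one_add_log N
  rw [harmonic_eq_sum_Icc] at h
  push_cast at h
  simpa [one_div] using h

/-- `∑ τ_k(n)/n ≤ (1 + log N)^k`. -/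
theorem sum_tk_div_le (k N : ℕ) (hN : 1 ≤ N) :
    ∑ n ∈ Icc 1 N, (tk k n : ℝ) / n ≤ (1 + Real.log N) ^ k := by
  have hlog : 0 ≤ 1 + Real.log N := by
    have := Real.log_natCast_nonneg N
    linarith
  induction k with
  | zero =>
    rw [pow_zero, Finset.sum_eq_single 1]
    · simp [tk_zero_apply]
    · intro n _ hn
      simp [tk_zero_apply, hn]
    · intro h
      exact absurd (Finset.mem_Icc.2 ⟨le_rfl, hN⟩) h
  | succ k ih =>
    have h1 : ∀ n ∈ Icc 1 N, (tk (k + 1) n : ℝ) / n =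
        ∑ p ∈ n.divisorsAntidiagonal, (tk k p.1 : ℝ) / p.1 * (1 / p.2) := by
      intro n hn
      rw [Finset.mem_Icc] at hn
      have h2 : (tk (k + 1) n : ℝ) = ∑ p ∈ n.divisorsAntidiagonal, (tk k p.1 : ℝ) := by
        rw [tk_succ_apply, Nat.sum_divisorsAntidiagonal (fun x _ => (tk k x : ℝ))]
        push_cast
        rfl
      rw [h2, Finset.sum_div]
      refine Finset.sum_congr rfl fun p hp => ?_
      have h3 := (Nat.mem_divisorsAntidiagonal.1 hp).1
      have h4 : (n : ℝ) = p.1 * p.2 := by exact_mod_cast h3.symm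
      rw [h4]
      field_simp
    rw [Finset.sum_congr rfl h1]
    refine (sum_anti_le (fun d e => (tk k d : ℝ) / d * (1 / e))
      (fun d e => by positivity) N).trans ?_
    rw [← Finset.sum_mul_sum, pow_succ]
    exact mul_le_mul ih (sum_inv_le N) (Finset.sum_nonneg fun _ _ => by positivity)
      (pow_nonneg hlog k)

/-- `∑ τ_{k+1}(n) ≤ N (1 + log N)^k`. -/
theorem sum_tk_succ_le (k N : ℕ) (hN : 1 ≤ N) :
    ∑ n ∈ Icc 1 N, (tk (k + 1) n : ℝ) ≤ N * (1 + Real.log N) ^ k := by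
  classical
  have h1 : ∀ n ∈ Icc 1 N, (tk (k + 1) n : ℝ) =
      ∑ d ∈ (Icc 1 N).filter (· ∣ n), (tk k d : ℝ) := by
    intro n hn
    rw [Finset.mem_Icc] at hn
    rw [tk_succ_apply]
    push_cast
    refine Finset.sum_congr ?_ fun _ _ => rfl
    ext d
    simp only [Nat.mem_divisors, Finset.mem_filter, Finset.mem_Icc]
    constructor
    · rintro ⟨h2, h3⟩
      have := Nat.le_of_dvd (by omega) h2
      have := Nat.pos_of_dvd_of_pos h2 (by omega)
      exact ⟨⟨by omega, by omega⟩, h2⟩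
    · rintro ⟨_, h3⟩
      exact ⟨h3, by omega⟩
  rw [Finset.sum_congr rfl h1]
  have h2 : ∑ n ∈ Icc 1 N, ∑ d ∈ (Icc 1 N).filter (· ∣ n), (tk k d : ℝ) =
      ∑ d ∈ Icc 1 N, ∑ n ∈ (Icc 1 N).filter (d ∣ ·), (tk k d : ℝ) := by
    simp_rw [Finset.sum_filter]
    rw [Finset.sum_comm]
  rw [h2]
  calc ∑ d ∈ Icc 1 N, ∑ n ∈ (Icc 1 N).filter (d ∣ ·), (tk k d : ℝ)
      ≤ ∑ d ∈ Icc 1 N, (N : ℝ) * ((tk k d : ℝ) / d) := by
        refine Finset.sum_le_sum fun d hd => ?_
        rw [Finset.mem_Icc] at hd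
        have hd0 : (0 : ℝ) < d := by exact_mod_cast hd.1
        rw [Finset.sum_const, nsmul_eq_mul]
        have h3 : ((Icc 1 N).filter (d ∣ ·)).card = N / d := by
          have := Nat.Ioc_filter_dvd_card_eq_div N d
          rw [← this]
          rfl
        rw [h3]
        have h4 : ((N / d : ℕ) : ℝ) ≤ (N : ℝ) / d := Nat.cast_div_le
        calc ((N / d : ℕ) : ℝ) * (tk k d : ℝ) ≤ (N : ℝ) / d * tk k d :=
              mul_le_mul_of_nonneg_right h4 (by positivity)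
          _ = (N : ℝ) * ((tk k d : ℝ) / d) := by ring
    _ = N * ∑ d ∈ Icc 1 N, (tk k d : ℝ) / d := by rw [Finset.mul_sum]
    _ ≤ N * (1 + Real.log N) ^ k :=
        mul_le_mul_of_nonneg_left (sum_tk_div_le k N hN) (by positivity)

/-- `∑ τ_k(n) ≤ N (1 + log N)^k`. -/
theorem sum_tk_le (k N : ℕ) (hN : 1 ≤ N) :
    ∑ n ∈ Icc 1 N, (tk k n : ℝ) ≤ N * (1 + Real.log N) ^ k := by
  refine le_trans (Finset.sum_le_sum fun n _ => ?_) (sum_tk_succ_le k N hN)
  exact_mod_cast tk_mono_left (Nat.le_succ k) n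

/-- `∑ τ_k(n)^j ≤ N (1 + log N)^(k^j)`. -/
theorem sum_tk_pow_le (k j N : ℕ) (hN : 1 ≤ N) :
    ∑ n ∈ Icc 1 N, (tk k n : ℝ) ^ j ≤ N * (1 + Real.log N) ^ (k ^ j) := by
  refine le_trans (Finset.sum_le_sum fun n hn => ?_) (sum_tk_le (k ^ j) N hN)
  rw [Finset.mem_Icc] at hn
  exact_mod_cast tk_pow_le k j n (by omega)

/-- `∑ τ_k(n)^j / n ≤ (1 + log N)^(k^j)`. -/
theorem sum_tk_pow_div_le (k j N : ℕ) (hN : 1 ≤ N) :
    ∑ n ∈ Icc 1 N, (tk k n : ℝ) ^ j / n ≤ (1 + Real.log N) ^ (k ^ j) := by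
  refine le_trans (Finset.sum_le_sum fun n hn => ?_) (sum_tk_div_le (k ^ j) N hN)
  rw [Finset.mem_Icc] at hn
  have : (tk k n : ℝ) ^ j ≤ tk (k ^ j) n := by exact_mod_cast tk_pow_le k j n (by omega)
  gcongr

/-- `∑ τ_k(n)^j / φ(n) ≤ (1 + log N)^(2 k^j)`. -/
theorem sum_tk_pow_div_totient_le (k j N : ℕ) (hN : 1 ≤ N) :
    ∑ n ∈ Icc 1 N, (tk k n : ℝ) ^ j / n.totient ≤ (1 + Real.log N) ^ (k ^ j * 2) := by
  refine le_trans (Finset.sum_le_sum fun n hn => ?_) (sum_tk_div_le (k ^ j * 2) N hN)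
  rw [Finset.mem_Icc] at hn
  have h1 : (tk k n : ℝ) ^ j ≤ tk (k ^ j) n := by exact_mod_cast tk_pow_le k j n (by omega)
  have h2 : (tk (k ^ j) n : ℝ) * tk 2 n ≤ tk (k ^ j * 2) n := by
    exact_mod_cast tk_mul_tk_le (k ^ j) 2 n
  calc (tk k n : ℝ) ^ j / n.totient = (tk k n : ℝ) ^ j * (n.totient : ℝ)⁻¹ := by
        rw [div_eq_mul_inv]
    _ ≤ (tk (k ^ j) n : ℝ) * ((tk 2 n : ℝ) / n) :=
        mul_le_mul h1 (inv_totient_le n) (by positivity) (by positivity)
    _ = (tk (k ^ j) n : ℝ) * tk 2 n / n := by ring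
    _ ≤ (tk (k ^ j * 2) n : ℝ) / n := by gcongr

/-! ## The same with `τ(n) = n.divisors.card` -/

theorem card_divisors_mul_le (a b : ℕ) :
    (a * b).divisors.card ≤ a.divisors.card * b.divisors.card := by
  have := tk_mul_le 2 a b
  rwa [tk_two_apply, tk_two_apply, tk_two_apply] at this

theorem le_totient_mul_card (n : ℕ) : n ≤ n.totient * n.divisors.card := by
  have := le_totient_mul_tk n
  rwa [tk_two_apply] at this

theorem div_totient_le (n : ℕ) : (n : ℝ) / n.totient ≤ n.divisors.card := by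
  rcases eq_or_ne n 0 with rfl | hn
  · simp
  have h2 : (0 : ℝ) < n.totient := by
    exact_mod_cast Nat.totient_pos.2 (Nat.pos_of_ne_zero hn)
  rw [div_le_iff₀ h2, mul_comm]
  exact_mod_cast le_totient_mul_card n

theorem sum_card_pow_div_le (k N : ℕ) (hN : 1 ≤ N) :
    ∑ n ∈ Icc 1 N, (n.divisors.card : ℝ) ^ k / n ≤ (1 + Real.log N) ^ (2 ^ k) := by
  have := sum_tk_pow_div_le 2 k N hN
  simpa only [tk_two_apply] using this

theorem sum_card_pow_div_totient_le (k N : ℕ) (hN : 1 ≤ N) :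
    ∑ n ∈ Icc 1 N, (n.divisors.card : ℝ) ^ k / n.totient ≤ (1 + Real.log N) ^ (2 ^ (k + 1)) := by
  have := sum_tk_pow_div_totient_le 2 k N hN
  rw [← pow_succ] at this
  simpa only [tk_two_apply] using this

theorem sum_card_pow_le (k N : ℕ) (hN : 1 ≤ N) :
    ∑ n ∈ Icc 1 N, (n.divisors.card : ℝ) ^ k ≤ N * (1 + Real.log N) ^ (2 ^ k) := by
  have := sum_tk_pow_le 2 k N hN
  simpa only [tk_two_apply] using this

theorem sum_card_mul_pow_le (d k N : ℕ) (hN : 1 ≤ N) :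
    ∑ n ∈ Icc 1 N, ((d * n).divisors.card : ℝ) ^ k ≤
      (d.divisors.card : ℝ) ^ k * (N * (1 + Real.log N) ^ (2 ^ k)) := by
  refine le_trans (Finset.sum_le_sum fun n _ => ?_)
    (le_trans (Finset.mul_sum _ _ _).ge
      (mul_le_mul_of_nonneg_left (sum_card_pow_le k N hN) (by positivity)))
  rw [← mul_pow]
  have : ((d * n).divisors.card : ℝ) ≤ (d.divisors.card : ℝ) * n.divisors.card := by
    exact_mod_cast card_divisors_mul_le d n
  gcongr

end Pool.Agent.Lib.MP_6bc78b_nt.MS.P2.H70
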